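import Mathlib
import Pool.Agent.Helper600R2.Quad.Family
import Pool.Agent.Helper600R2.Quad.Numeric3

/-!
Nonuniform proof systems: polynomial-size CNFs which are hard for refutations whose lines are
Boolean functions of few members of an arbitrary family of `2 ^ (N ^ K)` functions of approximate
degree at most `N ^ (1 - ε)`.
-/

namespace Pool.Agent.Results.MP_a77cad_lc.ApproxDegreeLines

/-- The Boolean function `f` of `N` bits has approximate degree at most `D`: some real polynomial
of total degree at most `D` is within `1 / 3` of `f` at all 0-1 points. -/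
def ApproxDegLE {N : ℕ} (D : ℝ) (f : (Fin N → Bool) → Bool) : Prop :=
  ∃ p : MvPolynomial (Fin N) ℝ, (p.totalDegree : ℝ) ≤ D ∧ ∀ z : Fin N → Bool,
    |MvPolynomial.eval (fun i => if z i = true then (1 : ℝ) else 0) p -
      (if f z = true then 1 else 0)| ≤ 1 / 3

/-- A clause over `N` variables: a finite set of literals; the literal `(x, s)` says that the
variable `x` has the value `s`. -/
abbrev Clause (N : ℕ) := Finset (Fin N × Bool)

/-- The assignment `z` satisfies the clause. -/
def Clause.Holds {N : ℕ} (z : Fin N → Bool) (c : Clause N) : Prop := ∃ l ∈ c, z l.1 = l.2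

/-- A refutation of the CNF `F` with `S` lines, each of which is an arbitrary Boolean function
`comb` of `r` members of the family `𝓕`.  Every line is implied by a clause of `F` or by at most
`a` earlier lines, and some line is unsatisfiable. -/
structure Refutation {N : ℕ} (F : Finset (Clause N)) (𝓕 : Finset ((Fin N → Bool) → Bool))
    (a r S : ℕ) where
  part : Fin S → Fin r → (Fin N → Bool) → Bool
  mem : ∀ j i, part j i ∈ 𝓕
  comb : Fin S → (Fin r → Bool) → Bool
  sound : ∀ j, (∃ c ∈ F, ∀ z, c.Holds z → comb j (fun i => part j i z) = true) ∨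
    ∃ P : Finset (Fin S), P.card ≤ a ∧ (∀ q ∈ P, q < j) ∧
      ∀ z, (∀ q ∈ P, comb q (fun i => part q i z) = true) → comb j (fun i => part j i z) = true
  final : ∃ j, ∀ z, comb j (fun i => part j i z) = false

open Finset Pool.Agent.Helper600R2.Quad Pool.Agent.H564R2.QF

/-- polynomials of total degree `D` are functions of degree `D` on the cube -/
theorem lowDeg_of_totalDegree {N : ℕ} (p : MvPolynomial (Fin N) ℝ) (D : ℕ)
    (hp : p.totalDegree ≤ D) :
    (fun z : Fin N → Bool => MvPolynomial.eval (fun i => if z i = true then (1 : ℝ) else 0) p) ∈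
      LowDeg (Fin N) D := by
  classical
  have h1 : (fun z : Fin N → Bool =>
      MvPolynomial.eval (fun i => if z i = true then (1 : ℝ) else 0) p) =
      ∑ e ∈ p.support, p.coeff e • ∏ i ∈ e.support,
        (fun z : Fin N → Bool => if z i = true then (1 : ℝ) else 0) := by
    funext z
    rw [MvPolynomial.eval_eq, Finset.sum_apply]
    refine Finset.sum_congr rfl (fun e _ => ?_)
    rw [Pi.smul_apply, Finset.prod_apply, smul_eq_mul]
    congr 1
    refine Finset.prod_congr rfl (fun i hi => ?_)
    rw [Finsupp.mem_support_iff] at hi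
    split_ifs
    · exact one_pow _
    · exact zero_pow hi
  rw [h1]
  refine Submodule.sum_mem _ (fun e he => Submodule.smul_mem _ _ ?_)
  have h2 : e.support.card ≤ D := by
    refine le_trans ?_ ((MvPolynomial.le_totalDegree he).trans hp)
    rw [Finsupp.sum, Finset.card_eq_sum_ones]
    refine Finset.sum_le_sum (fun i hi => ?_)
    rw [Finsupp.mem_support_iff] at hi
    omega
  refine LowDeg.of_le (LowDeg.prod e.support (fun _ => 1) _ (fun i _ => LowDeg.lit i true)) ?_
  simpa using h2

theorem transfer {V U : Type} (f : (V → Bool) → Bool) (F : (U → Bool) → Bool)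
    (Q : (U → Bool) → ℝ) (P : (V → Bool) → ℝ) (y : (U → Bool) → V → Bool)
    (hP : ∀ z, |P z - (if f z = true then (1 : ℝ) else 0)| ≤ 1 / 3) (hQ : ∀ z, Q z = P (y z))
    (hF : ∀ z, F z = f (y z)) : ∀ z, |Q z - (if F z = true then (1 : ℝ) else 0)| ≤ 1 / 3 := by
  intro z
  rw [hQ, hF]
  exact hP _

/-- partial inverse of an injection -/
noncomputable def pinv {A : Type} {N : ℕ} (e : A ↪ Fin N) (v : Fin N) : Option A := by
  classical
  exact if h : ∃ w, e w = v then some h.choose else none

theorem pinv_apply {A : Type} {N : ℕ} (e : A ↪ Fin N) (w : A) : pinv e (e w) = some w := by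
  classical
  unfold pinv
  have h : ∃ w', e w' = e w := ⟨w, rfl⟩
  simp only [dif_pos h]
  exact congrArg some (e.injective h.choose_spec)

/-- extension of an assignment by `false` -/
noncomputable def up {A : Type} {N : ℕ} (e : A ↪ Fin N) (z : A → Bool) (v : Fin N) : Bool :=
  match pinv e v with
  | some w => z w
  | none => false

theorem up_apply {A : Type} {N : ℕ} (e : A ↪ Fin N) (z : A → Bool) (w : A) :
    up e z (e w) = z w := by
  unfold up
  rw [pinv_apply]

/-- renaming of the variables of a clause -/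
def ren {A : Type} {N : ℕ} (e : A ↪ Fin N) (c : Finset (A × Bool)) : Clause N :=
  c.image fun l => (e l.1, l.2)

theorem holds_ren {A : Type} {N : ℕ} (e : A ↪ Fin N) (c : Finset (A × Bool))
    (z : Fin N → Bool) : (ren e c).Holds z ↔ HoldsA (fun w => z (e w)) c := by
  unfold ren Clause.Holds HoldsA
  constructor
  · rintro ⟨l, hl, hz⟩
    rw [mem_image] at hl
    obtain ⟨l', hl', rfl⟩ := hl
    exact ⟨l', hl', hz⟩
  · rintro ⟨l, hl, hz⟩
    exact ⟨_, mem_image_of_mem _ hl, hz⟩

/-- For all `K` and `ε > 0` there is `δ > 0` such that for all large `N` and every family `𝓕` of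
at most `2 ^ (N ^ K)` Boolean functions of `N` bits of approximate degree at most `N ^ (1 - ε)`
there is an unsatisfiable CNF with `N` variables, at most `N ^ (4 K + 9)` clauses and width
`O(log N)` all of whose refutations with lines that are Boolean functions of at most `N ^ δ`
members of `𝓕` and with at most `N ^ δ` premises per inference have at least `exp (N ^ δ)`
lines. -/
theorem result (K : ℕ) (ε : ℝ) (hε : 0 < ε) : ∃ (δ : ℝ) (N0 : ℕ), 0 < δ ∧ ∀ N ≥ N0,
    ∀ 𝓕 : Finset ((Fin N → Bool) → Bool), 𝓕.card ≤ 2 ^ (N ^ K) →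
      (∀ f ∈ 𝓕, ApproxDegLE ((N : ℝ) ^ (1 - ε)) f) →
      ∃ F : Finset (Clause N), F.card ≤ N ^ (4 * K + 9) ∧
        (∀ cl ∈ F, cl.card ≤ 4 * (K + 2) * (Nat.log 2 N + 1) + 4) ∧
        (∀ z : Fin N → Bool, ∃ cl ∈ F, ¬ cl.Holds z) ∧
        ∀ a r S : ℕ, (a : ℝ) ≤ (N : ℝ) ^ δ → (r : ℝ) ≤ (N : ℝ) ^ δ →
          Nonempty (Refutation F 𝓕 a r S) → Real.exp ((N : ℝ) ^ δ) ≤ S := by
  classical
  -- exponents
  obtain ⟨p, hp⟩ : ∃ p, p = min ε (1 / 2) / 64 := ⟨_, rfl⟩
  have hmin : 0 < min ε (1 / 2) := lt_min hε (by norm_num)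
  have hp0 : 0 < p := by rw [hp]; positivity
  have hp1 : 64 * p ≤ 1 / 2 := by
    rw [hp]
    have := min_le_right ε (1 / 2)
    linarith
  have hpε : 64 * p ≤ ε := by
    rw [hp]
    have := min_le_left ε (1 / 2)
    linarith
  obtain ⟨N0, hnum⟩ := numeric3 K p hp0 hp1
  refine ⟨p, N0, hp0, fun N hN 𝓕 h𝓕 hdeg => ?_⟩
  obtain ⟨n, k, κ, d, hn, hk, hN1, hsum, hκ, hD, hd, hE, hfan, hSr, hcard⟩ := hnum N hN
  let A := ((Fin n × Bool) × Fin k) ⊕ ((Fin n × Bool) × Fin κ)
  have hA : Fintype.card A ≤ N := by
    simp only [A, Fintype.card_sum, Fintype.card_prod, Fintype.card_fin, Fintype.card_bool]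
    refine le_trans (le_of_eq ?_) hsum
    ring
  obtain ⟨e⟩ : Nonempty (A ↪ Fin N) :=
    Function.Embedding.nonempty_of_card_le (by rw [Fintype.card_fin]; exact hA)
  have hx1 : (1 : ℝ) ≤ N := by exact_mod_cast hN1
  let G0 : {f // f ∈ 𝓕} → (A → Bool) → Bool := fun f z => f.1 (up e z)
  have hG0 : ∀ (c : {f // f ∈ 𝓕}) (w : (Fin n × Bool) × Fin κ → Bool),
      Apx ((Fin n × Bool) × Fin k) k d (fun z => G0 c (Sum.elim z w)) := by
    intro c w
    obtain ⟨q, hq1, hq2⟩ := hdeg c.1 c.2
    have hq3 : ((q.totalDegree : ℕ) : ℝ) ≤ (N : ℝ) ^ (1 - 64 * p) := by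
      refine hq1.trans (Real.rpow_le_rpow_of_exponent_le hx1 (by linarith))
    apply AD_apx (hD _ hq3)
    let g : Fin N → ((Fin n × Bool) × Fin k) ⊕ Bool := fun v =>
      match pinv e v with
      | some (.inl u) => .inl u
      | some (.inr u) => .inr (w u)
      | none => .inr false
    have hg : ∀ z : (Fin n × Bool) × Fin k → Bool,
        (fun v => Sum.elim z id (g v)) = up e (Sum.elim z w) := by
      intro z
      funext v
      simp only [up, g]
      rcases pinv e v with _ | (u | u) <;> rfl
    exact ⟨_, LowDeg.comp' (lowDeg_of_totalDegree q _ (le_refl _)) g,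
      transfer c.1 _ _ _ (fun z v => Sum.elim z id (g v)) hq2 (fun z => rfl)
        (fun z => congrArg c.1 (hg z).symm)⟩
  obtain ⟨π, h, hD1, hD2, hD3, hD4⟩ := core2 (n := n) (k := k) (κ := κ) hn hk G0 d hG0 (N ^ K)
    (Real.exp (-(N : ℝ) ^ (2 * p))) (Real.exp_pos _)
    (by
      apply count_ineq3 _ _ _ _ _ _ (Nat.one_le_pow _ _ hN1) _ hd
      · rw [Fintype.card_coe]
        exact_mod_cast h𝓕
      · have e1 : ((Fintype.card (Fin n × Bool) : ℕ) : ℝ) = 2 * n := by
          rw [Fintype.card_prod, Fintype.card_fin, Fintype.card_bool]; push_cast; ring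
        rw [e1, Fintype.card_fun, Fintype.card_bool, Fintype.card_fin]
        have e2 : (((2 : ℕ) ^ κ : ℕ) : ℝ) = 2 ^ κ := by push_cast; ring
        rw [e2]
        exact hE)
  refine ⟨(CNF π h).image (ren e), card_image_le.trans (hD1.trans hcard), ?_, ?_, ?_⟩
  · intro cl hcl
    rw [mem_image] at hcl
    obtain ⟨c, hc, rfl⟩ := hcl
    refine card_image_le.trans ((hD2 c hc).trans ?_)
    rw [hκ]
    refine le_of_eq ?_
    ring
  · intro z
    obtain ⟨c, hc, hcz⟩ := hD3 fun w => z (e w)
    exact ⟨ren e c, mem_image_of_mem _ hc, fun h => hcz ((holds_ren e c z).mp h)⟩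
  · rintro a r S ha hr ⟨ref⟩
    by_contra hcon
    push Not at hcon
    obtain ⟨j, hj⟩ := ref.final
    obtain ⟨z, hz⟩ := hD4 a r S (fun j l => ⟨ref.part j l, ref.mem j l⟩) ref.comb
      (hfan a r ha hr) (hSr r S (by positivity) hr hcon)
      (fun j => by
        rcases ref.sound j with ⟨c, hc, hcj⟩ | ⟨P, hP1, hP2, hP3⟩
        · left
          rw [mem_image] at hc
          obtain ⟨c', hc', rfl⟩ := hc
          refine ⟨c', hc', fun z hz => ?_⟩
          apply hcj
          rw [holds_ren]
          have : (fun w => up e z (e w)) = z := by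
            funext w
            exact up_apply e z w
          rw [this]
          exact hz
        · right
          exact ⟨P, hP1, hP2, fun z hz => hP3 _ hz⟩) j
    have hz' : ref.comb j (fun i => ref.part j i (up e z)) = true := hz
    rw [hj] at hz'
    simp at hz'

end Pool.Agent.Results.MP_a77cad_lc.ApproxDegreeLines
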