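import Mathlib
import Pool.Agent.NPC.Defs
import Pool.Agent.NPC.Dec
import Pool.Agent.H559R3.NDefs
import Pool.Agent.H559R3.NMain

/-!
# `coNP` against small nondeterministic circuits described in `NP ∩ coNP` with sublinear advice

Let `σ` be a nondecreasing function between a root of `log n` and `n ^ (1 - 1 / e)`. For every `k`
some language in `coNP` has no nondeterministic circuits of size `O(n * σ n ^ k)` whose
descriptions can be computed in `NP ∩ coNP` with `n / σ n` bits of advice.

If `coNP` is contained in `NP/poly` then every language in `coNP` has nondeterministic circuits of
some polynomial size, with no condition on their descriptions.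

Proof.  Otherwise every language in `coNP` has such circuits.  Start with a diagonal language in
`coNP`. Its circuits are described by a language `W` in `NP ∩ coNP`. The language of the padded
questions `is the i-th bit of the description one` and `is the i-th bit of the description zero`
(with the advice as a part of the question) is again in `NP ∩ coNP`, so it has small
nondeterministic circuits; these are used to verify guessed bits of the previous description.
Iterate. The input length shrinks by a factor `σ` at each level, so that after some constant number
of levels the description of the circuit can be written down explicitly in `o(n)` bits, and so can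
the advice strings of all levels.  From this code the descriptions of all the levels can be guessed
and verified in nondeterministic polynomial time (of an exponent that depends on `k` only), and
then the circuit for the diagonal language can be run; the diagonal language is the complement of
the language decided by this procedure.
-/

namespace Pool.Agent.Results.MP_a77cad_lc.NondetSublinearAdvice

open Pool.Agent.NPC Pool.Agent.NPC.H559U

theorem result (σ : ℕ → ℕ) (hσ : Monotone σ) (t e : ℕ)
    (hσ1 : ∀ᶠ n in Filter.atTop, Nat.log 2 n ≤ σ n ^ t)
    (hσ2 : ∀ᶠ n in Filter.atTop, σ n ^ e * n ≤ n ^ e)
    (a : ℕ → ℕ) (ha : ∀ᶠ n in Filter.atTop, a n * σ n ≤ n) (k : ℕ) :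
    ∃ L, InCoNP L ∧ ∀ c, ¬ HasUniformNCircuits {W | InNP W ∧ InCoNP W} a
      (fun n => c * (n * σ n ^ k)) L :=
  mainN σ hσ t e hσ1 hσ2 a ha k

end Pool.Agent.Results.MP_a77cad_lc.NondetSublinearAdvice
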