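import Pool.Agent.H522R3.ND.Bounds
import Pool.Agent.H522R3.ND.FrameTrade

set_option autoImplicit false

/-!
# Nondeterministic networks for unsatisfiability with negation symmetries

A network reads a `k`-CNF over the variables `X` (one input for each possible clause) and guessed values; its
other gates compute arbitrary functions of the multiset of their incoming values, in any set `K`.  A group `D`
of negation patterns acts on the clause inputs and, by `σ`, on the names of the guess inputs, and extends to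
automorphisms of the network.  Exponential size is needed for unsatisfiability as long as `σ` moves at most
`g` guess inputs with `r - g / 2` large, where `2 ^ r` is the order of `D`; and with `2 n` moved guess inputs,
for the group of all `2 ^ n` patterns, symmetry is no restriction at all.
-/

namespace Pool.Agent.Results.MP_a77cad_lc.SymmetricRefutations

open Pool.Agent.H30R2.NS (Clause Satisfies Sat neg)
open Pool.Agent.H30R2.PS (Net)
open H522R3.ND

lemma sat_of_oddSat {k : ℕ} {X : Type} (Φ : Set (Clause k X)) (h : OddSat Φ) : Sat Φ := by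
  obtain ⟨x, hx⟩ := h
  refine ⟨x, fun c hc => ?_⟩
  have h1 : Odd ((Finset.univ : Finset (Fin k)).filter fun l => x (c l).1 = (c l).2).card := hx _ hc
  obtain ⟨l, hl⟩ := Finset.card_pos.mp h1.pos
  rw [Finset.mem_filter] at hl
  exact ⟨l, hl.2⟩

lemma ext0_refl {X : Type} (a : X → ZMod 2) : ext0 (Function.Embedding.refl X) a = a := by
  funext x
  exact ext0_apply (Function.Embedding.refl X) a x

lemma not_fooled {k M : ℕ} {X Y K Gt : Type} [Fintype Gt] (one zero : K)
    (N : Net (Clause k X ⊕ Y) K Gt) (Acc : ((Y → K) → K) → Prop)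
    (hdec : ∀ Φ : Set (Clause k X), Φ.Finite → Φ.ncard ≤ M →
      (Acc (fun y => N.eval (data one zero Φ y)) ↔ ¬ Sat Φ)) :
    ¬ Fooled (Function.Embedding.refl X) M one zero N := by
  rintro ⟨Φ0, Φ1, h0, h1, hr, ho, hu, hy⟩
  have e : (fun y => N.eval (data one zero Φ0 y)) = fun y => N.eval (data one zero Φ1 y) := funext hy
  have h2 := (hdec Φ1 h1.1 h1.2).mpr hu
  rw [← e] at h2
  exact (hdec Φ0 h0.1 h0.2).mp h2 (sat_of_oddSat Φ0 ho)

theorem result :
    -- `3`-CNFs: lower bound for at most `g` moved guess inputs and `2 ^ r` symmetries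
    (∀ (r g : ℕ) (X Y K Gt : Type) [Fintype Gt] (D : AddSubgroup (X → ZMod 2)),
      Nat.card D = 2 ^ r → ∀ σ : D → Equiv.Perm Y, (∀ a b, σ (a + b) = σ a * σ b) →
      {y | ∃ a, σ a y ≠ y}.encard ≤ g → ∀ (one zero : K) (N : Net (Clause 3 X ⊕ Y) K Gt),
      (∀ a : D, SymAt N a.1 (σ a)) → ∀ Acc : ((Y → K) → K) → Prop,
      (∀ Φ : Set (Clause 3 X), Φ.Finite → Φ.ncard ≤ 4 * (r + 1) →
        (Acc (fun y => N.eval (data one zero Φ y)) ↔ ¬ Sat Φ)) →
      2 ^ ((r - g / 2) / 2000) ≤ Fintype.card Gt) ∧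
    -- `k`-CNFs
    (∃ C : ℝ, ∀ (k r g : ℕ), 3 ≤ k → k ≤ r - g / 2 →
      ∀ (X Y K Gt : Type) [Fintype Gt] (D : AddSubgroup (X → ZMod 2)),
      Nat.card D = 2 ^ r → ∀ σ : D → Equiv.Perm Y, (∀ a b, σ (a + b) = σ a * σ b) →
      {y | ∃ a, σ a y ≠ y}.encard ≤ g → ∀ (one zero : K) (N : Net (Clause k X ⊕ Y) K Gt),
      (∀ a : D, SymAt N a.1 (σ a)) → ∀ Acc : ((Y → K) → K) → Prop,
      (∀ Φ : Set (Clause k X), Φ.Finite → Φ.ncard ≤ 2 ^ (k - 1) * (r + 1) →
        (Acc (fun y => N.eval (data one zero Φ y)) ↔ ¬ Sat Φ)) →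
      (2 : ℝ) ^ ((1 - C * (Real.log k ^ 2 / k)) * ((r - g / 2 : ℕ) : ℝ)) ≤ Fintype.card Gt) ∧
    -- symmetrisation under all patterns, with `2 |W|` moved guess inputs
    (∀ (k M : ℕ) (W U Y Gt : Type) [Fintype W] [DecidableEq W] [Fintype U] [DecidableEq U] [Fintype Gt]
      (N : Net (Clause k (W ⊕ U) ⊕ Y) Bool Gt),
      (∀ Φ : Set (Clause k (W ⊕ U)), Φ.Finite → Φ.ncard ≤ M →
        ((∃ y, N.eval (data true false Φ y) = true) ↔ ¬ Sat Φ)) →
      ∃ (Gt' : Type) (_ : Fintype Gt') (N' : Net (Clause k (W ⊕ U) ⊕ (Y ⊕ (W × ZMod 2))) Bool Gt'),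
        (∀ a, SymAt N' a (Equiv.sumCongr 1 (lit fun w => a (Sum.inl w)))) ∧
        (∀ Φ : Set (Clause k (W ⊕ U)), Φ.Finite → Φ.ncard ≤ M →
          ((∃ y, N'.eval (data true false Φ y) = true) ↔ ¬ Sat Φ)) ∧
        OnlyNew N N' ∧
        Nat.card Gt' = 2 ^ Fintype.card U * (Fintype.card Gt +
          (2 ^ k + 1) * (2 * (Fintype.card W + Fintype.card U)) ^ k +
          4 * (Fintype.card W + Fintype.card U) + 1) + 1) := by
  classical
  refine ⟨?_, ?_, ?_⟩
  · intro r g X Y K Gt _ D hD σ hσ hg one zero N hN Acc hdec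
    by_contra hlt
    push Not at hlt
    refine not_fooled one zero N Acc hdec (three_bound _ D hD σ hσ hg one zero N (fun a => ?_) hlt)
    rw [ext0_refl]
    exact hN a
  · obtain ⟨C, _, hC⟩ := seth_bound
    refine ⟨C, ?_⟩
    intro k r g hk hkr X Y K Gt _ D hD σ hσ hg one zero N hN Acc hdec
    by_contra hlt
    push Not at hlt
    refine not_fooled one zero N Acc hdec (hC k r g hk hkr X X Y K Gt (Function.Embedding.refl X)
      D hD σ hσ hg one zero N (fun a => ?_) hlt)
    rw [ext0_refl]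
    exact hN a
  · intro k M W U Y Gt _ _ _ _ _ N hN
    refine ⟨_, inferInstance, frameTrade N, frameTrade_sym N, fun Φ h1 h2 => ?_,
      frameTrade_new N, frameTrade_card⟩
    rw [frameTrade_exists]
    have key : ∀ t, (∃ y, N.eval (data true false (seen t Φ) y) = true) ↔ ¬ Sat Φ := by
      intro t
      have h3 := seen_small (M := M) t Φ ⟨h1, h2⟩
      rw [hN _ h3.1 h3.2, sat_seen]
    constructor
    · rintro ⟨t, y, hy⟩
      exact (key t).mp ⟨y, hy⟩
    · intro h
      obtain ⟨y, hy⟩ := (key 0).mpr h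
      exact ⟨0, y, hy⟩

end Pool.Agent.Results.MP_a77cad_lc.SymmetricRefutations
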