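import Mathlib
import Pool.Agent.H542R2.PMNum
import Pool.Agent.H542R2.PMFinal

/-!
Tree-like refutations whose lines are arbitrary functions of polynomial description size.
-/

namespace Pool.Agent.Results.MP_a77cad_lc.TreelikeNonuniform

/-- A clause over `N` variables: a finite set of literals; the literal `(x, s)` says that the
variable `x` has the value `s`. -/
abbrev Clause (N : ℕ) := Finset (Fin N × Bool)

/-- The assignment `z` satisfies the clause. -/
def Clause.Holds {N : ℕ} (z : Fin N → Bool) (c : Clause N) : Prop := ∃ l ∈ c, z l.1 = l.2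

/-- A tree-like refutation of the CNF `F` with `S` lines.  Every line is a Boolean function from
the set `A` of allowed lines and is semantically implied by one clause of `F` or by its premises,
at most `a` lines; no line is a premise of two lines; the root is unsatisfiable and is not a
premise. -/
structure Refutation {N : ℕ} (F : Finset (Clause N)) (A : Finset ((Fin N → Bool) → Bool))
    (a S : ℕ) where
  line : Fin S → (Fin N → Bool) → Bool
  mem : ∀ j, line j ∈ A
  prem : Fin S → Finset (Fin S)
  card_prem : ∀ j, (prem j).card ≤ a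
  sound : ∀ j, (∃ c ∈ F, ∀ z, c.Holds z → line j z = true) ∨
    ∀ z, (∀ p ∈ prem j, line p z = true) → line j z = true
  tree : ∀ j j' p, p ∈ prem j → p ∈ prem j' → j = j'
  root : Fin S
  root_free : ∀ j, root ∉ prem j
  final : ∀ z, line root z = false

open H542PM Finset

/-- There is `c > 0` such that for every `k` the following holds for all large `N`.  Let `A` be
any set of at most `2 ^ (N ^ k)` Boolean functions of `N` variables.  Then there is an
unsatisfiable CNF with `N` variables, polynomially many clauses and clauses of width `O(log N)`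
all of whose tree-like refutations with lines from `A` and at most `N ^ k` premises per line have
at least `2 ^ (c N)` lines. -/
theorem result : ∃ c : ℝ, 0 < c ∧ ∀ k : ℕ, ∃ k' N0 : ℕ, ∀ N ≥ N0,
    ∀ A : Finset ((Fin N → Bool) → Bool), A.card ≤ 2 ^ (N ^ k) →
      ∃ F : Finset (Clause N), F.card ≤ N ^ k' ∧ (∀ cl ∈ F, cl.card ≤ k' * Nat.log 2 N) ∧
        (∀ z, ∃ cl ∈ F, ¬ cl.Holds z) ∧
        ∀ a S : ℕ, a ≤ N ^ k → Nonempty (Refutation F A a S) → (2 : ℝ) ^ (c * N) ≤ S := by
  classical
  refine ⟨1 / 10000000 / 2, by norm_num, fun k => ?_⟩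
  obtain ⟨k', N0, hN0⟩ := exists_good k
  obtain ⟨N1, hN1⟩ := ev_exp (2 * k + 4)
  refine ⟨k', max (max N0 N1) 4, fun N hN A hA => ?_⟩
  have hNN0 : N0 ≤ N := (le_max_left _ _).trans ((le_max_left _ _).trans hN)
  have hNN1 : N1 ≤ N := (le_max_right _ _).trans ((le_max_left _ _).trans hN)
  have hN4 : 4 ≤ N := (le_max_right _ _).trans hN
  clear hN
  have hNk : 1 ≤ N ^ k := Nat.one_le_pow _ _ (by omega)
  obtain ⟨F, μ, hF1, hF2, hF3, hg⟩ := hN0 N hNN0 A hA
  have hcp : ∀ (cl : Clause N) (z : Fin N → Bool), cp cl z = true ↔ cl.Holds z :=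
    fun cl z => cp_eq_true
  refine ⟨F, hF1, hF2, ?_, ?_⟩
  · intro z
    obtain ⟨cl, hcl, hz⟩ := hF3 z
    refine ⟨cl, hcl, fun h => ?_⟩
    rw [(hcp cl z).mpr h] at hz
    exact absurd hz (by simp)
  · rintro a S ha ⟨⟨line, hmem, prem, hprem, hsound, htree, root, hroot, hfin⟩⟩
    have hok : ∀ j, NodeOk {f | ∃ c ∈ F, f = cp c} line prem j := by
      intro j
      rcases hsound j with ⟨cl, hcl, h⟩ | h
      · left
        exact ⟨cp cl, ⟨cl, hcl, rfl⟩, fun z hz => h z ((hcp cl z).mp hz)⟩
      · right
        exact h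
    have hq : N ^ k + 2 ≤ N ^ (k + 2) := by
      have h1 : N ^ (k + 2) = N ^ k * N * N := by ring
      rw [h1]
      have h2 : N ^ k * 16 ≤ N ^ k * N * N := by
        rw [mul_assoc]
        apply Nat.mul_le_mul_left
        nlinarith
      omega
    have h0 := tree_bound hg (line := line) (fun j => hmem j) (P := prem) (φ := N ^ k)
      (fun j => (hprem j).trans ha) hq hok htree hroot hfin
    rw [Fintype.card_fin] at h0
    have h1 : (1 : ℝ) / 10000000 / 2 * N = (N : ℝ) / 10000000 / 2 := by ring
    rw [h1]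
    apply num_lin (X := (((N ^ k : ℕ) : ℝ) + 2) ^ 2) (by positivity) (by positivity) _ h0
    refine le_trans ?_ (hN1 N hNN1)
    have hNR : (4 : ℝ) ≤ N := by exact_mod_cast hN4
    obtain ⟨y, hy⟩ : ∃ y : ℝ, y = (N : ℝ) ^ k := ⟨_, rfl⟩
    have h2 : (1 : ℝ) ≤ y := by rw [hy]; exact one_le_pow₀ (by linarith)
    have h3 : (N : ℝ) ^ (2 * k + 4) = (y * y) * ((N * N) * (N * N)) := by rw [hy]; ring
    rw [h3]
    push_cast
    rw [← hy]
    have h4 : (16 : ℝ) ≤ N * N := by nlinarith
    have h5 : (256 : ℝ) ≤ (N * N) * (N * N) := by nlinarith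
    have h6 : y * y * 256 ≤ (y * y) * ((N * N) * (N * N)) :=
      mul_le_mul_of_nonneg_left h5 (by positivity)
    nlinarith

end Pool.Agent.Results.MP_a77cad_lc.TreelikeNonuniform
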